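import Pool.Agent.R750.PAFinal

/-!
# Projection areas of convex bodies in `ℝ⁵`

The nonnegative vector `pent` (area 2 on the five cyclically adjacent pairs of coordinates,
area 5 on the other five pairs) has all its `4 × 4` principal submatrices with at most one positive
eigenvalue, but it is not the vector of coordinate-plane projection areas of a convex body.
-/

open R750.PA

theorem Pool.Agent.Results.MP_2d1483_gt.PentagonAreas.result :
    (∀ i j, 0 ≤ pent i j) ∧
      (∀ m : Fin 5, AtMostOnePosEigenvalue ((Qmat pent).submatrix m.succAbove m.succAbove)) ∧
      ¬ Realizable pent :=
  ⟨fun i j => by unfold pent; split_ifs <;> norm_num, pent_cond, pent_not_realizable⟩
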